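import Pool.Agent.Q192.SE.Blocks

/-!
# Isomorphisms of algebras with blocks of rank-one operators are spatial

`M` is a linear space of operators on a Hilbert space `H`, closed under products and adjoints,
which leaves two complementary closed subspaces `V`, `W` invariant and contains all rank-one
operators inside `V` and inside `W`. A `*`-isomorphism between two such algebras is implemented
by a unitary.
-/

set_option autoImplicit false

open ContinuousLinearMap InnerProductSpace

namespace Pool.Agent.Q194.SE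

universe u v

/-- `M` is block diagonal for `H = V ⊕ W` and contains the rank-one operators of both blocks -/
structure Blocks {H : Type u} [NormedAddCommGroup H] [InnerProductSpace ℂ H] [CompleteSpace H]
    (M : Submodule ℂ (H →L[ℂ] H)) (V W : Submodule ℂ H) : Prop where
  orth : ∀ f ∈ V, ∀ g ∈ W, inner ℂ f g = 0
  total : ∀ f : H, (∀ g ∈ V, inner ℂ g f = 0) → (∀ g ∈ W, inner ℂ g f = 0) → f = 0
  closedV : IsClosed (V : Set H)
  closedW : IsClosed (W : Set H)
  rankV : ∀ f ∈ V, ∀ g ∈ V, rankOne ℂ f g ∈ M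
  rankW : ∀ f ∈ W, ∀ g ∈ W, rankOne ℂ f g ∈ M
  offVW : ∀ a ∈ M, ∀ f ∈ V, ∀ g ∈ W, inner ℂ f (a g) = 0
  offWV : ∀ a ∈ M, ∀ f ∈ W, ∀ g ∈ V, inner ℂ f (a g) = 0
  mul : ∀ a ∈ M, ∀ b ∈ M, a * b ∈ M
  adj : ∀ a ∈ M, adjoint a ∈ M

/-- `Φ` restricts to a `*`-isomorphism of `M` onto `N` -/
structure IsStarIso {H : Type u} [NormedAddCommGroup H] [InnerProductSpace ℂ H] [CompleteSpace H]
    {K : Type v} [NormedAddCommGroup K] [InnerProductSpace ℂ K] [CompleteSpace K]
    (M : Submodule ℂ (H →L[ℂ] H)) (N : Submodule ℂ (K →L[ℂ] K))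
    (Φ : (H →L[ℂ] H) → (K →L[ℂ] K)) : Prop where
  bij : Set.BijOn Φ M N
  add : ∀ a ∈ M, ∀ b ∈ M, Φ (a + b) = Φ a + Φ b
  smul : ∀ c : ℂ, ∀ a ∈ M, Φ (c • a) = c • Φ a
  mul : ∀ a ∈ M, ∀ b ∈ M, Φ (a * b) = Φ a * Φ b
  adj : ∀ a ∈ M, Φ (adjoint a) = adjoint (Φ a)

section

variable {H : Type u} [NormedAddCommGroup H] [InnerProductSpace ℂ H] [CompleteSpace H]
  {K : Type v} [NormedAddCommGroup K] [InnerProductSpace ℂ K] [CompleteSpace K]
  {M : Submodule ℂ (H →L[ℂ] H)} {N : Submodule ℂ (K →L[ℂ] K)} {Φ : (H →L[ℂ] H) → (K →L[ℂ] K)}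

theorem IsStarIso.zero (h : IsStarIso M N Φ) : Φ 0 = 0 := by
  have h1 := h.smul 0 0 M.zero_mem
  rwa [zero_smul, zero_smul] at h1

omit [CompleteSpace H] in
theorem rank_mul (x y z w : H) :
    (rankOne ℂ x y) * (rankOne ℂ z w) = (inner ℂ y z : ℂ) • (rankOne ℂ x w) := by
  ext t
  simp only [mul_apply_eq_comp, smul_apply, rankOne_apply, inner_smul_right, smul_smul]
  rw [mul_comm]

omit [CompleteSpace H] in
theorem mul_rank (a : H →L[ℂ] H) (x y : H) : a * rankOne ℂ x y = rankOne ℂ (a x) y := by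
  ext t
  simp only [mul_apply_eq_comp, rankOne_apply, map_smul]

theorem adj_rank (x y : H) : adjoint (rankOne ℂ x y : H →L[ℂ] H) = rankOne ℂ y x := by
  symm
  rw [eq_adjoint_iff]
  intro s t
  simp only [rankOne_apply, inner_smul_left, inner_smul_right, inner_conj_symm]
  ring

/-- The isometry of one block. -/
theorem exists_block (h : IsStarIso M N Φ)
    (V : Submodule ℂ H) (hinv : ∀ a ∈ M, ∀ x ∈ V, a x ∈ V)
    (hrank : ∀ f ∈ V, ∀ g ∈ V, rankOne ℂ f g ∈ M) :
    ∃ u : V →ₗᵢ[ℂ] K, ∀ (a : H →L[ℂ] H) (ha : a ∈ M) (x : V),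
      Φ a (u x) = u ⟨a x, hinv a ha x x.2⟩ := by
  by_cases hV : ∀ x ∈ V, x = 0
  · have hs : ∀ x : V, x = 0 := fun x => Subtype.ext (hV x x.2)
    refine ⟨⟨0, fun x => ?_⟩, fun a ha x => ?_⟩
    · rw [hs x]; simp
    · show Φ a 0 = 0
      rw [map_zero]
  · push Not at hV
    obtain ⟨ξ₀, hξ₀, hne⟩ := hV
    have hn0 : ‖ξ₀‖ ≠ 0 := norm_ne_zero_iff.2 hne
    set ξ : H := ((‖ξ₀‖ : ℂ)⁻¹) • ξ₀ with hξdef
    have hξV : ξ ∈ V := V.smul_mem _ hξ₀
    have hξn : ‖ξ‖ = 1 := by
      rw [hξdef, norm_smul, norm_inv, Complex.norm_real, norm_norm, inv_mul_cancel₀ hn0]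
    have hξi : (inner ℂ ξ ξ : ℂ) = 1 := by
      rw [inner_self_eq_norm_sq_to_K, hξn]; simp
    set e : H →L[ℂ] H := rankOne ℂ ξ ξ with he
    have heM : e ∈ M := hrank ξ hξV ξ hξV
    have hee : e * e = e := by rw [he, rank_mul, hξi, one_smul]
    have he0 : e ≠ 0 := by
      intro h0
      have h1 : e ξ = 0 := by rw [h0]; rfl
      rw [he, rankOne_apply, hξi, one_smul] at h1
      rw [h1, norm_zero] at hξn
      exact zero_ne_one hξn
    have hq0 : Φ e ≠ 0 := by
      intro h0
      apply he0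
      exact h.bij.injOn heM M.zero_mem (by rw [h0, h.zero])
    obtain ⟨k, hk⟩ : ∃ k, Φ e k ≠ 0 := by
      by_contra hc
      push Not at hc
      exact hq0 (ContinuousLinearMap.ext hc)
    set η : K := ((‖Φ e k‖ : ℂ)⁻¹) • Φ e k with hη
    have hηn : ‖η‖ = 1 := by
      rw [hη, norm_smul, norm_inv, Complex.norm_real, norm_norm,
        inv_mul_cancel₀ (norm_ne_zero_iff.2 hk)]
    have hηi : (inner ℂ η η : ℂ) = 1 := by
      rw [inner_self_eq_norm_sq_to_K, hηn]; simp
    have hqη : Φ e η = η := by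
      have h1 : Φ e (Φ e k) = Φ e k := by
        have h2 := h.mul e heM e heM
        rw [hee] at h2
        conv_rhs => rw [h2]
        rfl
      rw [hη, map_smul, h1]
    have hlin : ∀ x : V, rankOne ℂ (x : H) ξ ∈ M := fun x => hrank x x.2 ξ hξV
    have hinner : ∀ x y : V, inner ℂ (Φ (rankOne ℂ (x : H) ξ) η) (Φ (rankOne ℂ (y : H) ξ) η)
        = (inner ℂ (x : H) (y : H) : ℂ) := by
      intro x y
      have h1 : inner ℂ (Φ (rankOne ℂ (x : H) ξ) η) (Φ (rankOne ℂ (y : H) ξ) η)
          = inner ℂ η (adjoint (Φ (rankOne ℂ (x : H) ξ)) (Φ (rankOne ℂ (y : H) ξ) η)) := by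
        rw [adjoint_inner_right]
      rw [h1, ← h.adj _ (hlin x), adj_rank]
      have h2 : Φ (rankOne ℂ ξ (x : H)) (Φ (rankOne ℂ (y : H) ξ) η)
          = (Φ (rankOne ℂ ξ (x : H)) * Φ (rankOne ℂ (y : H) ξ)) η := rfl
      rw [h2, ← h.mul _ (hrank ξ hξV x x.2) _ (hlin y), rank_mul, h.smul _ _ heM, smul_apply, hqη,
        inner_smul_right, hηi, mul_one]
    let uL : V →ₗ[ℂ] K :=
      { toFun := fun x => Φ (rankOne ℂ (x : H) ξ) η
        map_add' := by
          intro x y
          have h1 : (rankOne ℂ ((x + y : V) : H) ξ : H →L[ℂ] H)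
              = rankOne ℂ (x : H) ξ + rankOne ℂ (y : H) ξ := by
            ext t
            simp only [rankOne_apply, Submodule.coe_add, smul_add, add_apply]
          rw [h1, h.add _ (hlin x) _ (hlin y), add_apply]
        map_smul' := by
          intro c x
          have h1 : (rankOne ℂ ((c • x : V) : H) ξ : H →L[ℂ] H)
              = c • rankOne ℂ (x : H) ξ := by
            ext t
            simp only [rankOne_apply, Submodule.coe_smul, smul_apply, smul_smul]
            rw [mul_comm]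
          rw [h1, h.smul _ _ (hlin x), smul_apply, RingHom.id_apply] }
    refine ⟨⟨uL, fun x => ?_⟩, fun a ha x => ?_⟩
    · have h1 : ‖uL x‖ ^ 2 = ‖x‖ ^ 2 := by
        have h2 := hinner x x
        rw [inner_self_eq_norm_sq_to_K, inner_self_eq_norm_sq_to_K] at h2
        have h3 : ((‖uL x‖ ^ 2 : ℝ) : ℂ) = ((‖x‖ ^ 2 : ℝ) : ℂ) := by
          push_cast
          exact h2
        exact_mod_cast h3
      exact (sq_eq_sq₀ (norm_nonneg _) (norm_nonneg _)).1 h1
    · show Φ a (Φ (rankOne ℂ (x : H) ξ) η) = Φ (rankOne ℂ (a x) ξ) η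
      rw [← mul_rank, h.mul a ha _ (hlin x)]
      rfl

/-- The isometry intertwining `M` with `Φ`. -/
theorem exists_isometry {V W : Submodule ℂ H} (hM : Blocks M V W) (h : IsStarIso M N Φ) :
    ∃ U : H →ₗᵢ[ℂ] K, ∀ a ∈ M, ∀ x, Φ a (U x) = U (a x) := by
  -- `W` is the orthogonal complement of `V`
  have : CompleteSpace V := hM.closedV.completeSpace_coe
  have : CompleteSpace W := hM.closedW.completeSpace_coe
  have hWV : W = Vᗮ := by
    apply le_antisymm
    · intro g hg
      rw [Submodule.mem_orthogonal]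
      intro f hf
      exact hM.orth f hf g hg
    · intro f hf
      rw [Submodule.mem_orthogonal] at hf
      have h1 : f - W.starProjection f = 0 := by
        apply hM.total
        · intro g hg
          rw [inner_sub_right, hf g hg, hM.orth g hg _ (Submodule.starProjection_apply_mem _ _),
            sub_zero]
        · intro g hg
          exact Submodule.inner_right_of_mem_orthogonal hg
            (Submodule.sub_starProjection_mem_orthogonal f)
      rw [sub_eq_zero] at h1
      rw [h1]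
      exact Submodule.starProjection_apply_mem _ _
  have hVV : V = Wᗮ := by
    rw [hWV, Submodule.orthogonal_orthogonal]
  have hinvV : ∀ a ∈ M, ∀ x ∈ V, a x ∈ V := by
    intro a ha x hx
    rw [hVV, Submodule.mem_orthogonal]
    intro g hg
    exact hM.offWV a ha g hg x hx
  have hinvW : ∀ a ∈ M, ∀ x ∈ W, a x ∈ W := by
    intro a ha x hx
    rw [hWV, Submodule.mem_orthogonal]
    intro g hg
    exact hM.offVW a ha g hg x hx
  obtain ⟨u₁, hu₁⟩ := exists_block h V hinvV hM.rankV
  obtain ⟨u₂, hu₂⟩ := exists_block h W hinvW hM.rankW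
  have hcross : ∀ (x : V) (y : W), (inner ℂ (u₁ x) (u₂ y) : ℂ) = 0 := by
    intro x y
    set a : H →L[ℂ] H := rankOne ℂ (x : H) (x : H) with ha
    have haM : a ∈ M := hM.rankV x x.2 x x.2
    have hax : (⟨a x, hinvV a haM x x.2⟩ : V) = ((‖(x : H)‖ : ℂ) ^ 2) • x := by
      apply Subtype.ext
      show a x = ((‖(x : H)‖ : ℂ) ^ 2) • (x : H)
      rw [ha, rankOne_apply, inner_self_eq_norm_sq_to_K]
      rfl
    have hay : (⟨a y, hinvW a haM y y.2⟩ : W) = 0 := by
      apply Subtype.ext
      show a y = 0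
      rw [ha, rankOne_apply, hM.orth x x.2 y y.2, zero_smul]
    have h1 : (inner ℂ (Φ a (u₁ x)) (u₂ y) : ℂ) = 0 := by
      rw [← adjoint_inner_right, ← h.adj a haM, ha, adj_rank, ← ha, hu₂ a haM y, hay, map_zero,
        inner_zero_right]
    rw [hu₁ a haM x, hax, map_smul, inner_smul_left] at h1
    rcases mul_eq_zero.1 h1 with h2 | h2
    · have h3 : (x : V) = 0 := by
        rw [map_pow, Complex.conj_ofReal] at h2
        have h4 := pow_eq_zero_iff (two_ne_zero) |>.1 h2
        have h5 : ‖(x : H)‖ = 0 := by exact_mod_cast h4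
        exact Subtype.ext (norm_eq_zero.1 h5)
      rw [h3, map_zero, inner_zero_left]
    · exact h2
  subst hWV
  let UL : H →ₗ[ℂ] K := u₁.toLinearMap ∘ₗ (V.orthogonalProjectionOnto : H →L[ℂ] V).toLinearMap +
    u₂.toLinearMap ∘ₗ (Vᗮ.orthogonalProjectionOnto : H →L[ℂ] Vᗮ).toLinearMap
  have hUL : ∀ x, UL x = u₁ (V.orthogonalProjectionOnto x) + u₂ (Vᗮ.orthogonalProjectionOnto x) :=
    fun x => rfl
  have hnorm : ∀ x, ‖UL x‖ = ‖x‖ := by
    intro x
    have h1 : ‖UL x‖ * ‖UL x‖ = ‖x‖ ^ 2 := by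
      rw [hUL, norm_add_sq_eq_norm_sq_add_norm_sq_of_inner_eq_zero _ _ (hcross _ _),
        u₁.norm_map, u₂.norm_map, V.norm_sq_eq_add_norm_sq_projection]
      ring
    rw [← sq] at h1
    exact (sq_eq_sq₀ (norm_nonneg _) (norm_nonneg _)).1 h1
  -- the projections commute with the operators in `M`
  have hproj : ∀ a ∈ M, ∀ x : H, V.starProjection (a x) = a (V.starProjection x) ∧
      Vᗮ.starProjection (a x) = a (Vᗮ.starProjection x) := by
    intro a ha x
    have hx := V.starProjection_add_starProjection_orthogonal x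
    have h1 : a (V.starProjection x) ∈ V :=
      hinvV a ha _ (Submodule.starProjection_apply_mem _ _)
    have h2 : a (Vᗮ.starProjection x) ∈ Vᗮ :=
      hinvW a ha _ (Submodule.starProjection_apply_mem _ _)
    have h3 : a x = a (V.starProjection x) + a (Vᗮ.starProjection x) := by
      rw [← map_add, hx]
    have h4 : V.starProjection (a x) = a (V.starProjection x) :=
      Submodule.eq_starProjection_of_mem_orthogonal' h1 h2 h3
    refine ⟨h4, ?_⟩
    have h5 := V.starProjection_add_starProjection_orthogonal (a x)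
    rw [h4] at h5
    exact add_left_cancel (h5.trans h3)
  have hint : ∀ a ∈ M, ∀ x, Φ a (UL x) = UL (a x) := by
    intro a ha x
    rw [hUL, hUL, map_add, hu₁ a ha, hu₂ a ha]
    congr 2
    · apply Subtype.ext
      exact (hproj a ha x).1.symm
    · apply Subtype.ext
      exact (hproj a ha x).2.symm
  exact ⟨⟨UL, hnorm⟩, fun a ha x => hint a ha x⟩

/-- **Spatial implementation.** -/
theorem spatial {V W : Submodule ℂ H} {V' W' : Submodule ℂ K} (hM : Blocks M V W)
    (hN : Blocks N V' W') (h : IsStarIso M N Φ) :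
    ∃ U : H ≃ₗᵢ[ℂ] K, ∀ a ∈ M, ∀ x, Φ a (U x) = U (a x) := by
  obtain ⟨U₀, hint⟩ := exists_isometry hM h
  have hrange : U₀.toLinearMap.range = ⊤ := by
    have : CompleteSpace U₀.toLinearMap.range := by
      have h2 : IsClosed (Set.range U₀) := U₀.isometry.isClosedEmbedding.isClosed_range
      have h3 : IsClosed (U₀.toLinearMap.range : Set K) := by
        rw [LinearMap.coe_range]
        exact h2
      exact h3.completeSpace_coe
    rw [← Submodule.orthogonal_eq_bot_iff, Submodule.eq_bot_iff]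
    intro k hk
    rw [Submodule.mem_orthogonal] at hk
    have hk' : ∀ x, (inner ℂ (U₀ x) k : ℂ) = 0 := fun x => hk _ ⟨x, rfl⟩
    -- vectors `g` of a block are orthogonal to `k`
    have key : ∀ g : K, rankOne ℂ g g ∈ N → (inner ℂ g k : ℂ) = 0 := by
      intro g hg
      by_contra hc
      -- `g` is orthogonal to the range
      have hgr : ∀ x, (inner ℂ g (U₀ x) : ℂ) = 0 := by
        intro x
        obtain ⟨b, hb, hbg⟩ := h.bij.surjOn hg
        have h1 : (inner ℂ (Φ (adjoint b) (U₀ x)) k : ℂ) = 0 := by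
          rw [hint _ (hM.adj b hb)]
          exact hk' _
        rw [h.adj b hb, hbg, adj_rank, rankOne_apply, inner_smul_left] at h1
        rcases mul_eq_zero.1 h1 with h2 | h2
        · exact (map_eq_zero _).1 h2
        · exact absurd h2 hc
      obtain ⟨b, hb, hbg⟩ := h.bij.surjOn hg
      have hb0 : b = 0 := by
        ext x
        have h1 : U₀ (b x) = 0 := by
          rw [← hint b hb x, hbg, rankOne_apply, hgr, zero_smul]
        have h2 := U₀.norm_map (b x)
        rw [h1, norm_zero] at h2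
        exact norm_eq_zero.1 h2.symm
      rw [hb0, h.zero] at hbg
      have h3 : (rankOne ℂ g g : K →L[ℂ] K) g = 0 := by rw [← hbg]; rfl
      rw [rankOne_apply] at h3
      rcases smul_eq_zero.1 h3 with h4 | h4
      · rw [inner_self_eq_zero] at h4
        rw [h4, inner_zero_left] at hc
        exact hc rfl
      · rw [h4, inner_zero_left] at hc
        exact hc rfl
    exact hN.total k (fun g hg => key g (hN.rankV g hg g hg)) (fun g hg => key g (hN.rankW g hg g hg))
  refine ⟨LinearIsometryEquiv.ofSurjective U₀ (LinearMap.range_eq_top.1 hrange), fun a ha x => ?_⟩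
  exact hint a ha x

/-- **Spatial implementation**, second version: nothing is assumed on `N`, except that it contains
all operators in its commutant. -/
theorem spatial' {V W : Submodule ℂ H} (hM : Blocks M V W)
    (hN : ∀ p : K →L[ℂ] K, (∀ b ∈ N, p * b = b * p) → p ∈ N) (h : IsStarIso M N Φ) :
    ∃ U : H ≃ₗᵢ[ℂ] K, ∀ a ∈ M, ∀ x, Φ a (U x) = U (a x) := by
  obtain ⟨U₀, hint⟩ := exists_isometry hM h
  set R : Submodule ℂ K := U₀.toLinearMap.range with hR
  have : CompleteSpace R := by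
    have h2 : IsClosed (Set.range U₀) := U₀.isometry.isClosedEmbedding.isClosed_range
    have h3 : IsClosed (R : Set K) := by
      rw [hR, LinearMap.coe_range]
      exact h2
    exact h3.completeSpace_coe
  have hmem : ∀ x, U₀ x ∈ R := fun x => ⟨x, rfl⟩
  have hcomm : ∀ b ∈ N, Rᗮ.starProjection * b = b * Rᗮ.starProjection := by
    intro b hb
    obtain ⟨a, ha, rfl⟩ := h.bij.surjOn hb
    ext k
    show Rᗮ.starProjection (Φ a k) = Φ a (Rᗮ.starProjection k)
    have hx := R.starProjection_add_starProjection_orthogonal k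
    have h1 : Φ a (R.starProjection k) ∈ R := by
      obtain ⟨x, hx⟩ : R.starProjection k ∈ R := Submodule.starProjection_apply_mem _ _
      rw [← hx]
      show Φ a (U₀ x) ∈ R
      rw [hint a ha x]
      exact hmem _
    have h2 : Φ a (Rᗮ.starProjection k) ∈ Rᗮ := by
      rw [Submodule.mem_orthogonal]
      rintro _ ⟨x, rfl⟩
      show inner ℂ (U₀ x) (Φ a (Rᗮ.starProjection k)) = 0
      rw [← adjoint_inner_left, ← h.adj a ha, hint _ (hM.adj a ha)]
      exact Submodule.inner_right_of_mem_orthogonal (hmem _)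
        (Submodule.starProjection_apply_mem _ _)
    have h3 : Φ a k = Φ a (R.starProjection k) + Φ a (Rᗮ.starProjection k) := by
      rw [← map_add, hx]
    have h4 : R.starProjection (Φ a k) = Φ a (R.starProjection k) :=
      Submodule.eq_starProjection_of_mem_orthogonal' h1 h2 h3
    have h5 := R.starProjection_add_starProjection_orthogonal (Φ a k)
    rw [h4] at h5
    exact add_left_cancel (h5.trans h3)
  have hpN : Rᗮ.starProjection ∈ N := hN _ hcomm
  obtain ⟨b, hb, hbg⟩ := h.bij.surjOn hpN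
  have hb0 : b = 0 := by
    ext x
    have h1 : U₀ (b x) = 0 := by
      rw [← hint b hb x, hbg]
      have h6 : R.starProjection (U₀ x) = U₀ x := Submodule.starProjection_eq_self_iff.2 (hmem x)
      have h7 := R.starProjection_add_starProjection_orthogonal (U₀ x)
      rw [h6] at h7
      exact add_eq_left.1 h7
    have h2 := U₀.norm_map (b x)
    rw [h1, norm_zero] at h2
    exact norm_eq_zero.1 h2.symm
  rw [hb0, h.zero] at hbg
  have hrange : R = ⊤ := by
    rw [← Submodule.orthogonal_eq_bot_iff, Submodule.eq_bot_iff]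
    intro k hk
    have h1 : Rᗮ.starProjection k = k := Submodule.starProjection_eq_self_iff.2 hk
    rw [← h1, ← hbg]
    rfl
  refine ⟨LinearIsometryEquiv.ofSurjective U₀ (LinearMap.range_eq_top.1 hrange), fun a ha x => ?_⟩
  exact hint a ha x

/-- The same with the structure of `Pool.Agent.Q192.SE.Blocks` and explicit hypotheses. -/
theorem spatial_of_blocks {V W : Submodule ℂ H} {V' W' : Submodule ℂ K}
    (hM : Pool.Agent.Q192.SE.Blocks M V W) (hN : Pool.Agent.Q192.SE.Blocks N V' W')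
    (Φ : (H →L[ℂ] H) → (K →L[ℂ] K)) (hbij : Set.BijOn Φ M N)
    (hadd : ∀ a ∈ M, ∀ b ∈ M, Φ (a + b) = Φ a + Φ b)
    (hsmul : ∀ c : ℂ, ∀ a ∈ M, Φ (c • a) = c • Φ a)
    (hmul : ∀ a ∈ M, ∀ b ∈ M, Φ (a ∘L b) = Φ a ∘L Φ b)
    (hadj : ∀ a ∈ M, Φ (adjoint a) = adjoint (Φ a)) :
    ∃ U : H ≃ₗᵢ[ℂ] K, ∀ a ∈ M, ∀ x, Φ a (U x) = U (a x) :=
  spatial (V := V) (W := W) (V' := V') (W' := W')
    { orth := hM.orth, total := hM.total, closedV := hM.closedV, closedW := hM.closedW
      rankV := hM.rankV, rankW := hM.rankW, offVW := hM.offVW, offWV := hM.offWV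
      mul := hM.mul, adj := hM.adj }
    { orth := hN.orth, total := hN.total, closedV := hN.closedV, closedW := hN.closedW
      rankV := hN.rankV, rankW := hN.rankW, offVW := hN.offVW, offWV := hN.offWV
      mul := hN.mul, adj := hN.adj }
    { bij := hbij, add := hadd, smul := hsmul, mul := hmul, adj := hadj }

/-- The second version with the structure of `Pool.Agent.Q192.SE.Blocks` and explicit
hypotheses. -/
theorem spatial_of_comm {V W : Submodule ℂ H} (hM : Pool.Agent.Q192.SE.Blocks M V W)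
    (hcomm : ∀ p : K →L[ℂ] K, (∀ b ∈ N, p ∘L b = b ∘L p) → p ∈ N)
    (Φ : (H →L[ℂ] H) → (K →L[ℂ] K)) (hbij : Set.BijOn Φ M N)
    (hadd : ∀ a ∈ M, ∀ b ∈ M, Φ (a + b) = Φ a + Φ b)
    (hsmul : ∀ c : ℂ, ∀ a ∈ M, Φ (c • a) = c • Φ a)
    (hmul : ∀ a ∈ M, ∀ b ∈ M, Φ (a ∘L b) = Φ a ∘L Φ b)
    (hadj : ∀ a ∈ M, Φ (adjoint a) = adjoint (Φ a)) :
    ∃ U : H ≃ₗᵢ[ℂ] K, ∀ a ∈ M, ∀ x, Φ a (U x) = U (a x) :=
  spatial' (V := V) (W := W)
    { orth := hM.orth, total := hM.total, closedV := hM.closedV, closedW := hM.closedW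
      rankV := hM.rankV, rankW := hM.rankW, offVW := hM.offVW, offWV := hM.offWV
      mul := hM.mul, adj := hM.adj } hcomm
    { bij := hbij, add := hadd, smul := hsmul, mul := hmul, adj := hadj }

end

end Pool.Agent.Q194.SE
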